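import Pool.Agent.H73.HadProd

/-!
MP_af15e5_an, Q1, in a stronger form: condition `N(α, β)` with real `α, β ≥ 1` passes to all
smaller exponents (not only `(α - 1, β)`), to all `|x| ≤ 1`, and to kernels multiplied by `n`
functions with values in half planes when both exponents are lowered by `n`.
-/

set_option autoImplicit false

namespace Pool.Agent.Results.MP_af15e5_an.SmallerExponents

/-- The `n`-th Taylor coefficient of `f` at `0`. -/
noncomputable def coeff (f : ℂ → ℂ) (n : ℕ) : ℂ := iteratedDeriv n f 0 / (n.factorial : ℂ)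

/-- The Hadamard product `(f * g)(z)`. -/
noncomputable def had (f g : ℂ → ℂ) (z : ℂ) : ℂ := ∑' n : ℕ, coeff f n * coeff g n * z ^ n

/-- The kernel `(1 + x z)^γ / (1 - z)^β`, with principal branches. -/
noncomputable def kern (γ β : ℝ) (x z : ℂ) : ℂ := (1 + x * z) ^ (γ : ℂ) / (1 - z) ^ (β : ℂ)

/-- Condition `N(γ, β)`. -/
def N (γ β : ℝ) (φ : ℂ → ℂ) : Prop :=
  ∀ x : ℂ, ‖x‖ = 1 → ∀ z : ℂ, ‖z‖ < 1 → had φ (kern γ β x) z ≠ 0

/-- `g` is analytic in the unit disc and all its values there lie in one open half plane whose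
boundary line passes through `0`. -/
def HalfPlane (g : ℂ → ℂ) : Prop :=
  DifferentiableOn ℂ g (Metric.ball (0 : ℂ) 1) ∧
    ∃ c : ℂ, ∀ s : ℂ, ‖s‖ < 1 → 0 < (c * g s).re

lemma kern_eq (γ β : ℝ) (x z : ℂ) :
    kern γ β x z = Pool.Agent.H73.Had.kr (γ : ℂ) (-(β : ℂ)) x z := by
  unfold kern Pool.Agent.H73.Had.kr
  rw [Complex.cpow_neg, div_eq_mul_inv]

/-- Let `α, β ≥ 1` be real and let `φ` be analytic in the unit disc with `N(α, β)`.  Let `n` be a
natural number, `0 ≤ γ ≤ α - n`, `0 ≤ δ ≤ β - n`, and let `g 0, …, g (n-1)` be analytic in the disc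
with values in half planes.  Then the Hadamard product of `φ` with
`(1 + x z)^γ / (1 - z)^δ * g 0 ⋯ g (n-1)` has no zero in the disc, for all `|x| ≤ 1`. -/
theorem result (α β : ℝ) (hα : 1 ≤ α) (hβ : 1 ≤ β) (φ : ℂ → ℂ)
    (hφ : DifferentiableOn ℂ φ (Metric.ball (0 : ℂ) 1)) (hN : N α β φ)
    (n : ℕ) (γ δ : ℝ) (hγ0 : 0 ≤ γ) (hγ : γ ≤ α - n) (hδ0 : 0 ≤ δ) (hδ : δ ≤ β - n)
    (g : ℕ → ℂ → ℂ) (hg : ∀ j < n, HalfPlane (g j))
    (x : ℂ) (hx : ‖x‖ ≤ 1) (z : ℂ) (hz : ‖z‖ < 1) :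
    had φ (fun s => kern γ δ x s * ∏ j ∈ Finset.range n, g j s) z ≠ 0 := by
  have hN' : ∀ x : ℂ, ‖x‖ = 1 → ∀ z : ℂ, ‖z‖ < 1 →
      Pool.Agent.H73.Had.hd φ (Pool.Agent.H73.Had.kr (α : ℂ) (-(β : ℂ)) x) z ≠ 0 := by
    intro x hx z hz
    have h1 := hN x hx z hz
    have h2 : kern α β x = Pool.Agent.H73.Had.kr (α : ℂ) (-(β : ℂ)) x :=
      funext fun s => kern_eq α β x s
    rw [h2] at h1
    exact h1
  have h3 := Pool.Agent.H73.Had.prod_ne hα hβ hφ hN' n hγ0 (by linarith) hδ0 (by linarith) g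
    (fun j hj => (hg j hj).1) (fun j hj => (hg j hj).2) hx hz
  have h4 : (fun s => kern γ δ x s * ∏ j ∈ Finset.range n, g j s)
      = fun s => Pool.Agent.H73.Had.kr (γ : ℂ) (-(δ : ℂ)) x s * ∏ j ∈ Finset.range n, g j s :=
    funext fun s => by rw [kern_eq]
  rw [h4]
  exact h3

end Pool.Agent.Results.MP_af15e5_an.SmallerExponents
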